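import Mathlib

/-!
Algebraic normal form of functions on `(ZMod 2)^p` with values in a field of characteristic two.
-/

set_option autoImplicit false

open Finset

namespace Pool.Agent.Helper479_mod

variable {K : Type} [Field K] [Algebra (ZMod 2) K] {p : ℕ}

/-- the ring homomorphism from `ZMod 2` -/
abbrev φ (K : Type) [Field K] [Algebra (ZMod 2) K] : ZMod 2 → K := fun z => algebraMap (ZMod 2) K z

lemma two_eq_zero : (2 : K) = 0 := by
  have h1 : algebraMap (ZMod 2) K (2 : ZMod 2) = (2 : K) := map_ofNat _ 2
  rw [← h1]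
  have h2 : (2 : ZMod 2) = 0 := by decide
  rw [h2, map_zero]

lemma add_self (k : K) : k + k = 0 := by
  rw [← two_mul, two_eq_zero, zero_mul]

lemma phi_zero : φ K 0 = 0 := map_zero _

lemma phi_one : φ K 1 = 1 := map_one _

lemma zmod_two_cases (a : ZMod 2) : a = 0 ∨ a = 1 := by
  revert a; decide

lemma phi_ind (a b : ZMod 2) : φ K a + (1 + φ K b) = if b = a then 1 else 0 := by
  have h01 : (0 : ZMod 2) ≠ 1 := by decide
  rcases zmod_two_cases a with rfl | rfl <;> rcases zmod_two_cases b with rfl | rfl
  · rw [phi_zero, if_pos rfl, add_zero, zero_add]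
  · rw [phi_zero, phi_one, if_neg h01.symm, zero_add, add_self]
  · rw [phi_zero, phi_one, if_neg h01, add_zero, add_self]
  · rw [phi_one, if_pos rfl, ← add_assoc, add_self, zero_add]

/-- the coefficients of the algebraic normal form -/
def cf (P : (Fin p → ZMod 2) → K) (S : Finset (Fin p)) : K :=
  ∑ z, P z * ∏ i ∈ univ \ S, (1 + φ K (z i))

lemma anf (P : (Fin p → ZMod 2) → K) (y : Fin p → ZMod 2) :
    P y = ∑ S : Finset (Fin p), cf P S * ∏ i ∈ S, φ K (y i) := by
  classical
  have h1 : ∀ z : Fin p → ZMod 2, ∏ i, (φ K (y i) + (1 + φ K (z i))) =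
      if z = y then 1 else 0 := by
    intro z
    simp_rw [phi_ind]
    by_cases h : z = y
    · subst h; simp
    · rw [if_neg h]
      obtain ⟨i, hi⟩ := Function.ne_iff.1 h
      exact prod_eq_zero (mem_univ i) (if_neg hi)
  have h2 : P y = ∑ z, P z * ∏ i, (φ K (y i) + (1 + φ K (z i))) := by
    simp_rw [h1]
    simp
  have h3 : ∀ z : Fin p → ZMod 2, P z * ∏ i, (φ K (y i) + (1 + φ K (z i))) =
      ∑ S : Finset (Fin p), P z * ((∏ i ∈ S, φ K (y i)) * ∏ i ∈ univ \ S, (1 + φ K (z i))) := by
    intro z
    rw [Finset.prod_add, powerset_univ, mul_sum]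
  rw [h2, sum_congr rfl fun z _ => h3 z, sum_comm]
  simp_rw [cf, sum_mul]
  apply sum_congr rfl
  intro S _
  apply sum_congr rfl
  intro z _
  ring

/-- the sum over a box -/
lemma box_sum (P : (Fin p → ZMod 2) → K) (S : Finset (Fin p))
    (hS : ∀ S' : Finset (Fin p), S ⊂ S' → cf P S' = 0) (u v : Fin p → ZMod 2) :
    ∑ T ∈ S.powerset, P (fun i => if i ∈ T then v i else u i) =
      cf P S * ∏ i ∈ S, φ K (u i + v i) := by
  classical
  have h1 : ∑ T ∈ S.powerset, P (fun i => if i ∈ T then v i else u i) =
      ∑ S' : Finset (Fin p), cf P S' * ∑ T ∈ S.powerset,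
        ∏ i ∈ S', φ K (if i ∈ T then v i else u i) := by
    simp_rw [mul_sum]
    rw [sum_comm]
    apply sum_congr rfl
    intro T _
    exact anf P _
  rw [h1, Finset.sum_eq_single S]
  · congr 1
    have h2 : ∀ i ∈ S, φ K (u i + v i) = φ K (v i) + φ K (u i) := by
      intro i _
      simp only [φ, map_add]
      ring
    rw [prod_congr rfl h2, Finset.prod_add]
    apply sum_congr rfl
    intro T hT
    have hTS := mem_powerset.1 hT
    rw [← Finset.prod_sdiff hTS, mul_comm]
    congr 1
    · apply prod_congr rfl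
      intro i hi
      rw [if_pos hi]
    · apply prod_congr rfl
      intro i hi
      rw [if_neg (mem_sdiff.1 hi).2]
  · intro S' _ hne
    by_cases hsub : S ⊆ S'
    · rw [hS S' (lt_of_le_of_ne hsub (Ne.symm hne)), zero_mul]
    · obtain ⟨i0, hi0, hi0'⟩ := not_subset.1 hsub
      have h3 : ∑ T ∈ S.powerset, ∏ i ∈ S', φ K (if i ∈ T then v i else u i) = 0 := by
        rw [← insert_erase hi0, sum_powerset_insert (notMem_erase i0 S), ← sum_add_distrib]
        apply sum_eq_zero
        intro T _
        have h4 : ∏ i ∈ S', φ K (if i ∈ insert i0 T then v i else u i) =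
            ∏ i ∈ S', φ K (if i ∈ T then v i else u i) := by
          apply prod_congr rfl
          intro i hi
          have hne' : i ≠ i0 := fun h => hi0' (h ▸ hi)
          simp [mem_insert, hne']
        rw [h4, add_self]
      rw [h3, mul_zero]
  · intro h
    exact absurd (mem_univ S) h

/-- a function whose coefficients of degree at least `q` vanish is determined by the others -/
lemma cf_inj {q : ℕ} {P P' : (Fin p → ZMod 2) → K}
    (h : ∀ S : Finset (Fin p), q ≤ S.card → cf P S = 0)
    (h' : ∀ S : Finset (Fin p), q ≤ S.card → cf P' S = 0)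
    (heq : ∀ S : Finset (Fin p), S.card < q → cf P S = cf P' S) : P = P' := by
  funext y
  rw [anf P y, anf P' y]
  apply sum_congr rfl
  intro S _
  by_cases hS : q ≤ S.card
  · rw [h S hS, h' S hS]
  · rw [heq S (by omega)]

lemma card_small (p q : ℕ) :
    (univ.filter fun S : Finset (Fin p) => S.card < q).card ≤ q * (p + 1) ^ q := by
  classical
  have h1 : (univ.filter fun S : Finset (Fin p) => S.card < q) =
      (range q).biUnion fun i => powersetCard i (univ : Finset (Fin p)) := by
    ext S
    simp only [mem_filter, mem_univ, true_and, mem_biUnion, mem_range, mem_powersetCard,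
      subset_univ]
    constructor
    · intro h; exact ⟨S.card, h, rfl⟩
    · rintro ⟨i, hi, h⟩; rw [h]; exact hi
  rw [h1]
  refine card_biUnion_le.trans ?_
  calc ∑ i ∈ range q, (powersetCard i (univ : Finset (Fin p))).card
      ≤ ∑ i ∈ range q, (p + 1) ^ q := by
        apply sum_le_sum
        intro i hi
        rw [card_powersetCard, card_univ, Fintype.card_fin]
        calc p.choose i ≤ p ^ i := Nat.choose_le_pow p i
          _ ≤ (p + 1) ^ i := Nat.pow_le_pow_left (Nat.le_succ p) i
          _ ≤ (p + 1) ^ q := Nat.pow_le_pow_right (Nat.succ_pos p) (mem_range.1 hi).le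
    _ = q * (p + 1) ^ q := by rw [sum_const, card_range, smul_eq_mul]

end Pool.Agent.Helper479_mod
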