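import Mathlib

/-!
Spaces of functions with values in a field of characteristic two that are invariant under a
`2`-group: the dimension is controlled by the functions that are invariant.
-/

set_option autoImplicit false

open Finset Module

namespace Pool.Agent.Helper479_mod

variable {K : Type} [Field K]

/-- every space of functions has an information set -/
lemma exists_infoK {X : Type} [Fintype X] [DecidableEq X] (W : Submodule K (X → K)) :
    ∃ I : Finset X, (∀ w ∈ W, (∀ i ∈ I, w i = 0) → w = 0) ∧ I.card = finrank K W := by
  classical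
  let P : Finset (Finset X) := univ.filter fun I => ∀ w ∈ W, (∀ i ∈ I, w i = 0) → w = 0
  have hP : P.Nonempty := ⟨univ, by
    simp only [P, mem_filter, mem_univ, true_and]
    intro w _ h
    funext i
    exact h i trivial⟩
  obtain ⟨I, hI, hmin⟩ := P.exists_min_image Finset.card hP
  simp only [P, mem_filter, mem_univ, true_and] at hI
  refine ⟨I, hI, ?_⟩
  apply le_antisymm
  · -- the minimal set gives independent elements
    have h1 : ∀ i : I, ∃ w : W, (∀ j ∈ I, j ≠ (i : X) → (w : X → K) j = 0) ∧
        (w : X → K) i ≠ 0 := by
      intro i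
      by_contra hcon
      push Not at hcon
      have h2 : I.erase i ∈ P := by
        simp only [P, mem_filter, mem_univ, true_and]
        intro w hw h
        apply hI w hw
        have h3 : ∀ j ∈ I, j ≠ (i : X) → w j = 0 := fun j hj hji =>
          h j (mem_erase.2 ⟨hji, hj⟩)
        intro j hj
        by_cases hji : j = i
        · rw [hji]; exact hcon ⟨w, hw⟩ h3
        · exact h3 j hj hji
      have h4 := hmin _ h2
      rw [card_erase_of_mem i.2] at h4
      have : 0 < I.card := card_pos.2 ⟨i, i.2⟩
      omega
    choose u hu1 hu2 using h1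
    have hli : LinearIndependent K u := by
      rw [Fintype.linearIndependent_iff]
      intro g hg i
      have h5 : (∑ j, g j • (u j : X → K)) (i : X) = 0 := by
        have := congrArg (fun w : W => (w : X → K) i) hg
        simpa using this
      rw [Finset.sum_apply, Finset.sum_eq_single i] at h5
      · simp only [Pi.smul_apply, smul_eq_mul, mul_eq_zero] at h5
        exact h5.resolve_right (hu2 i)
      · intro j _ hj
        have : (u j : X → K) i = 0 :=
          hu1 j i i.2 (fun h => hj (Subtype.ext h.symm))
        simp [this]
      · simp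
    have := hli.fintype_card_le_finrank
    simpa using this
  · -- restriction to `I` is injective
    let ρ : W →ₗ[K] (I → K) :=
      { toFun := fun w i => (w : X → K) i
        map_add' := fun _ _ => rfl
        map_smul' := fun _ _ => rfl }
    have hρ : Function.Injective ρ := by
      rw [injective_iff_map_eq_zero]
      intro w hw
      apply Subtype.ext
      exact hI w w.2 fun i hi => congrFun hw ⟨i, hi⟩
    have := LinearMap.finrank_le_finrank_of_injective hρ
    simpa using this

/-- if the functions in `W` are determined by the values on `I`, the dimension is at most the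
cardinality of `I` -/
lemma finrank_le_of_info {X : Type} [Fintype X] {W : Submodule K (X → K)} {I : Finset X}
    (hI : ∀ w ∈ W, (∀ i ∈ I, w i = 0) → w = 0) : finrank K W ≤ I.card := by
  let ρ : W →ₗ[K] (I → K) :=
    { toFun := fun w i => (w : X → K) i
      map_add' := fun _ _ => rfl
      map_smul' := fun _ _ => rfl }
  have hρ : Function.Injective ρ := by
    rw [injective_iff_map_eq_zero]
    intro w hw
    apply Subtype.ext
    exact hI w w.2 fun i hi => congrFun hw ⟨i, hi⟩
  have := LinearMap.finrank_le_finrank_of_injective hρ
  simpa using this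

/-- pull back along the quotient map on every orbit -/
def pull (K : Type) [Field K] (J : Type) {G V : Type} (π : G → V) :
    (J × V → K) →ₗ[K] (J × G → K) :=
  LinearMap.funLeft K K fun x : J × G => (x.1, π x.2)

lemma pull_apply {J G V : Type} (π : G → V) (P : J × V → K) (x : J × G) :
    pull K J π P x = P (x.1, π x.2) := rfl

/-- the size of a preimage -/
lemma card_preimage_pull {J G V : Type} [Fintype J] [DecidableEq J] [AddCommGroup G] [Fintype G]
    [AddCommGroup V] [Fintype V] [DecidableEq V] (π : G →+ V) (hπ : Function.Surjective π)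
    (I : Finset (J × V)) :
    (univ.filter fun x : J × G => (x.1, π x.2) ∈ I).card * Fintype.card V =
      I.card * Fintype.card G := by
  classical
  set Jset : Finset (J × G) := univ.filter fun x => (x.1, π x.2) ∈ I with hJset
  have hfib : ∀ v : V, (univ.filter fun g : G => π g = v).card =
      (univ.filter fun g : G => π g = 0).card := by
    intro v
    obtain ⟨g0, hg0⟩ := hπ v
    apply card_bij' (fun g _ => g - g0) (fun g _ => g + g0)
    · intro g hg
      simp only [mem_filter, mem_univ, true_and] at hg ⊢
      rw [map_sub, hg, hg0, sub_self]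
    · intro g hg
      simp only [mem_filter, mem_univ, true_and] at hg ⊢
      rw [map_add, hg, hg0, zero_add]
    · intro g _; simp
    · intro g _; simp
  have hG : Fintype.card G = Fintype.card V * (univ.filter fun g : G => π g = 0).card := by
    rw [← card_univ, card_eq_sum_card_fiberwise (f := π) (t := univ)
      (fun _ _ => mem_coe.2 (mem_univ _))]
    rw [sum_congr rfl fun v _ => hfib v, sum_const, card_univ, smul_eq_mul]
  have hJ : Jset.card = I.card * (univ.filter fun g : G => π g = 0).card := by
    have hmaps : Set.MapsTo (fun x : J × G => (x.1, π x.2)) (Jset : Set (J × G))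
        (I : Set (J × V)) := fun x hx => (mem_filter.1 (mem_coe.1 hx)).2
    rw [card_eq_sum_card_fiberwise hmaps]
    rw [sum_congr rfl (g := fun _ => (univ.filter fun g : G => π g = 0).card)]
    · rw [sum_const, smul_eq_mul]
    · rintro ⟨j, v⟩ hjv
      rw [← hfib v]
      refine card_bij' (fun x _ => x.2) (fun g _ => (j, g)) ?_ ?_ ?_ ?_
      · intro x hx
        simp only [mem_filter, mem_univ, true_and, Jset, Prod.mk.injEq] at hx ⊢
        exact hx.2.2
      · intro g hg
        simp only [mem_filter, mem_univ, true_and, Jset, Prod.mk.injEq] at hg ⊢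
        rw [hg]
        exact ⟨hjv, rfl⟩
      · intro x hx
        simp only [mem_filter, mem_univ, true_and, Jset, Prod.mk.injEq] at hx
        rw [← hx.2.1]
      · intro g _; rfl
  rw [hJ, hG]
  ring

variable [Fintype K] [Algebra (ZMod 2) K]

/-- a nonzero space invariant under a `2`-group has a nonzero invariant element -/
lemma exists_fixed {X N : Type} [Finite X] [AddCommGroup N] [Finite N]
    (hN : ∀ g : N, ∃ k : ℕ, 2 ^ k • g = 0)
    (act : N → X → X) (hact0 : ∀ x, act 0 x = x)
    (hact : ∀ g h x, act (g + h) x = act h (act g x))
    (M : Submodule K (X → K)) (hM : ∀ F ∈ M, ∀ g, (fun x => F (act g x)) ∈ M)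
    (hne : M ≠ ⊥) : ∃ F ∈ M, F ≠ 0 ∧ ∀ g x, F (act g x) = F x := by
  classical
  have : Fintype X := Fintype.ofFinite X
  let _ : MulAction (Multiplicative N) M :=
    { smul := fun g F => ⟨fun x => F.1 (act (Multiplicative.toAdd g) x), hM F.1 F.2 _⟩
      one_smul := by
        intro F
        apply Subtype.ext
        funext x
        change F.1 (act 0 x) = F.1 x
        rw [hact0]
      mul_smul := by
        intro g h F
        apply Subtype.ext
        funext x
        change F.1 (act (Multiplicative.toAdd g + Multiplicative.toAdd h) x) =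
          F.1 (act (Multiplicative.toAdd h) (act (Multiplicative.toAdd g) x))
        rw [hact] }
  have hp : IsPGroup 2 (Multiplicative N) := by
    intro g
    obtain ⟨k, hk⟩ := hN (Multiplicative.toAdd g)
    exact ⟨k, by rw [← ofAdd_toAdd g, ← ofAdd_nsmul, hk]; rfl⟩
  have : Nontrivial M := Submodule.nontrivial_iff_ne_bot.2 hne
  have : Finite M := inferInstance
  have hcard : 2 ∣ Nat.card M := by
    have h1 : Nat.card M = Nat.card K ^ finrank K M := Module.natCard_eq_pow_finrank
    have h2 : 2 ∣ Nat.card K := by
      have h3 : Nat.card K = Nat.card (ZMod 2) ^ finrank (ZMod 2) K :=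
        Module.natCard_eq_pow_finrank
      have h4 : finrank (ZMod 2) K ≠ 0 := by
        have : 0 < finrank (ZMod 2) K := Module.finrank_pos
        omega
      rw [h3, Nat.card_zmod]
      exact dvd_pow_self 2 h4
    have h5 : finrank K M ≠ 0 := by
      have : 0 < finrank K M := Module.finrank_pos
      omega
    rw [h1]
    exact h2.trans (dvd_pow_self _ h5)
  have h0 : (0 : M) ∈ MulAction.fixedPoints (Multiplicative N) M := by
    intro g
    apply Subtype.ext
    funext x
    rfl
  obtain ⟨F, hF, hF0⟩ := hp.exists_fixed_point_of_prime_dvd_card_of_fixed_point M hcard h0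
  refine ⟨F.1, F.2, fun h => hF0 (Subtype.ext h.symm), ?_⟩
  intro g x
  have h1 := hF (Multiplicative.ofAdd g)
  have h2 := congrArg (fun F : M => F.1 x) h1
  exact h2

/-- the dimension bound -/
lemma finrank_pull {J G V : Type} [Fintype J] [AddCommGroup G] [Fintype G] [AddCommGroup V]
    [Fintype V] (π : G →+ V) (hπ : Function.Surjective π)
    (hker : ∀ g, π g = 0 → ∃ k : ℕ, 2 ^ k • g = 0)
    (M : Submodule K (J × G → K))
    (hM : ∀ F ∈ M, ∀ g, π g = 0 → (fun x : J × G => F (x.1, x.2 + g)) ∈ M) :
    finrank K M * Fintype.card V ≤
      Fintype.card G * finrank K (M.comap (pull K J π)) := by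
  classical
  obtain ⟨I, hI, hIcard⟩ := exists_infoK (M.comap (pull K J π))
  let Jset : Finset (J × G) := univ.filter fun x => (x.1, π x.2) ∈ I
  have hinfo : ∀ w ∈ M, (∀ i ∈ Jset, w i = 0) → w = 0 := by
    intro w hw h0
    let M' : Submodule K (J × G → K) :=
      { carrier := {F | F ∈ M ∧ ∀ i ∈ Jset, F i = 0}
        add_mem' := by
          rintro F F' ⟨h1, h2⟩ ⟨h3, h4⟩
          exact ⟨M.add_mem h1 h3, fun i hi => by
            rw [Pi.add_apply, h2 i hi, h4 i hi, add_zero]⟩
        zero_mem' := ⟨M.zero_mem, fun _ _ => rfl⟩
        smul_mem' := by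
          rintro k F ⟨h1, h2⟩
          exact ⟨M.smul_mem k h1, fun i hi => by
            rw [Pi.smul_apply, h2 i hi, smul_zero]⟩ }
    by_contra hne
    have hM'ne : M' ≠ ⊥ := by
      intro hbot
      have : w ∈ M' := ⟨hw, h0⟩
      rw [hbot, Submodule.mem_bot] at this
      exact hne this
    obtain ⟨F, hF, hFne, hFfix⟩ := exists_fixed (N := π.ker) (X := J × G)
      (fun g => by
        obtain ⟨k, hk⟩ := hker g.1 g.2
        exact ⟨k, Subtype.ext hk⟩)
      (fun g x => (x.1, x.2 + (g : G)))
      (fun x => by
        change (x.1, x.2 + ((0 : π.ker) : G)) = x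
        rw [ZeroMemClass.coe_zero, add_zero])
      (fun g h x => by
        change (x.1, x.2 + ((g + h : π.ker) : G)) = (x.1, x.2 + (g : G) + (h : G))
        rw [AddMemClass.coe_add, add_assoc])
      M'
      (by
        rintro F ⟨hF1, hF2⟩ g
        refine ⟨hM F hF1 g g.2, ?_⟩
        intro i hi
        apply hF2
        have := (mem_filter.1 hi).2
        refine mem_filter.2 ⟨mem_univ _, ?_⟩
        change (i.1, π (i.2 + (g : G))) ∈ I
        rw [map_add, (g.2 : π (g : G) = 0), add_zero]
        exact this)
      hM'ne
    -- `F` comes from below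
    let s := Function.surjInv hπ
    have hs : ∀ v, π (s v) = v := Function.surjInv_eq hπ
    let P : J × V → K := fun x => F (x.1, s x.2)
    have hPF : pull K J π P = F := by
      funext x
      rw [pull_apply]
      change F (x.1, s (π x.2)) = F x
      have h1 : π (s (π x.2) - x.2) = 0 := by rw [map_sub, hs, sub_self]
      have h2 := hFfix ⟨s (π x.2) - x.2, h1⟩ x
      change F (x.1, x.2 + (s (π x.2) - x.2)) = F x at h2
      rwa [add_sub_cancel] at h2
    have hPmem : P ∈ M.comap (pull K J π) := by
      rw [Submodule.mem_comap, hPF]
      exact hF.1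
    have hP0 : P = 0 := by
      apply hI P hPmem
      intro i hi
      apply hF.2 (i.1, s i.2)
      refine mem_filter.2 ⟨mem_univ _, ?_⟩
      change (i.1, π (s i.2)) ∈ I
      rw [hs]
      exact hi
    apply hFne
    rw [← hPF, hP0, map_zero]
  have h1 := finrank_le_of_info hinfo
  -- the cardinality of `Jset`
  have h2 : Jset.card * Fintype.card V = I.card * Fintype.card G :=
    card_preimage_pull π hπ I
  calc finrank K M * Fintype.card V ≤ Jset.card * Fintype.card V := Nat.mul_le_mul_right _ h1
    _ = I.card * Fintype.card G := h2
    _ = Fintype.card G * finrank K (M.comap (pull K J π)) := by rw [hIcard, mul_comm]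

end Pool.Agent.Helper479_mod
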